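import Mathlib
import Pool.Agent.Helper232.RZ.Defs
import Pool.Agent.Helper232.RZ.N_sysPP
import Pool.Agent.Helper232.RZ.N_H_map
import Pool.Agent.Helper232.RZ.N_H_add
import Pool.Agent.Helper232.RZ.N_H_pi
import Pool.Agent.Helper232.RZ.N_h_map
import Pool.Agent.Helper232.RZ.N_h_add
import Pool.Agent.Helper232.RZ.N_formulas
import Pool.Agent.Helper232.RZ.N_formulas2
import Pool.Agent.Helper232.RZ.N_andFin
import Pool.Agent.Helper232.RZ.N_ac_hom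
import Pool.Agent.Helper232.RZ.N_ac_pp
import Pool.Agent.Helper232.RZ.N_ac_retract
import Pool.Agent.Helper232.RZ.N_le0
import Pool.Agent.Helper232.RZ.N_maxtype
import Pool.Agent.Helper232.RZ.N_hull
import Pool.Agent.Helper232.RZ.N_real

set_option autoImplicit false

namespace Pool.Agent.Helper232.RZ



/-- admissible elements -/
def irr_Adm {R : Type} [Ring R] {A : Type} [AddCommGroup A] [Module R A] (c : A)
    (θ0 θ1 : PP R 1) (u : A) : Prop :=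
  θ0.h u ∧ θ1.h (c - u) ∧ ∀ φ : PP R 1, φ.h c → φ.h u ∧ φ.h (c - u)

theorem irr_compact {R : Type} [Ring R] {A : Type} [AddCommGroup A] [Module R A] (hA : AC R A)
    (c : A) (θ0 θ1 : PP R 1) (Θ : Set (PP R 1))
    (h : ∀ F : Finset (PP R 1), (F : Set (PP R 1)) ⊆ Θ → ∀ φ : PP R 1, φ.h c →
      ∃ u : A, θ0.h u ∧ θ1.h (c - u) ∧ φ.h u ∧ φ.h (c - u) ∧ ∀ σ ∈ F, σ.h u) :
    ∃ u : A, irr_Adm c θ0 θ1 u ∧ ∀ σ ∈ Θ, σ.h u := by
  classical
  obtain ⟨u, hu⟩ := ac_pp hA c {ρ : PP R 2 | ∃ σs φs : Finset (PP R 1), (σs : Set (PP R 1)) ⊆ Θ ∧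
      (∀ φ ∈ φs, φ.h c) ∧ ∀ u : A, θ0.h u → θ1.h (c - u) → (∀ σ ∈ σs, σ.h u) →
        (∀ φ ∈ φs, φ.h u ∧ φ.h (c - u)) → ρ.H ![c, u]} (by
    intro F hF
    have hF' : ∀ ρ ∈ F, ∃ σs φs : Finset (PP R 1), (σs : Set (PP R 1)) ⊆ Θ ∧
      (∀ φ ∈ φs, φ.h c) ∧ ∀ u : A, θ0.h u → θ1.h (c - u) → (∀ σ ∈ σs, σ.h u) →
        (∀ φ ∈ φs, φ.h u ∧ φ.h (c - u)) → ρ.H ![c, u] := fun ρ hρ => hF hρ
    choose! σs φs h1 h2 h3 using hF'
    obtain ⟨χ, hχ⟩ := andFin (F.biUnion φs)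
    have hχc : χ.h c := by
      refine (hχ A _).2 fun σ hσ => ?_
      obtain ⟨ρ, hρ, hσρ⟩ := Finset.mem_biUnion.1 hσ
      exact h2 ρ hρ σ hσρ
    obtain ⟨u, u1, u2, u3, u4, u5⟩ := h (F.biUnion σs) (by
      intro σ hσ
      obtain ⟨ρ, hρ, hσρ⟩ := Finset.mem_biUnion.1 (Finset.mem_coe.1 hσ)
      exact h1 ρ hρ hσρ) χ hχc
    refine ⟨u, fun ρ hρ => h3 ρ hρ u u1 u2 (fun σ hσ => u5 σ (Finset.mem_biUnion.2 ⟨ρ, hρ, hσ⟩))
      fun φ hφ => ?_⟩
    have hm := Finset.mem_biUnion.2 ⟨ρ, hρ, hφ⟩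
    exact ⟨(hχ A _).1 u3 φ hm, (hχ A _).1 u4 φ hm⟩)
  refine ⟨u, ⟨?_, ?_, ?_⟩, ?_⟩
  · obtain ⟨ζ, hζ⟩ := (formulas2 (R := R)).1 θ0
    exact (hζ A c u).1 (hu ζ ⟨∅, ∅, by simp, by simp, fun u a _ _ _ => (hζ A c u).2 a⟩)
  · obtain ⟨ζ, hζ⟩ := (formulas2 (R := R)).2.2 θ1
    exact (hζ A c u).1 (hu ζ ⟨∅, ∅, by simp, by simp, fun u _ a _ _ => (hζ A c u).2 a⟩)
  · intro φ hφ
    constructor
    · obtain ⟨ζ, hζ⟩ := (formulas2 (R := R)).1 φ
      exact (hζ A c u).1 (hu ζ ⟨∅, {φ}, by simp, by simpa using hφ,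
        fun u _ _ _ a => (hζ A c u).2 (a φ (Finset.mem_singleton_self φ)).1⟩)
    · obtain ⟨ζ, hζ⟩ := (formulas2 (R := R)).2.2 φ
      exact (hζ A c u).1 (hu ζ ⟨∅, {φ}, by simp, by simpa using hφ,
        fun u _ _ _ a => (hζ A c u).2 (a φ (Finset.mem_singleton_self φ)).2⟩)
  · intro σ hσ
    obtain ⟨ζ, hζ⟩ := (formulas2 (R := R)).1 σ
    exact (hζ A c u).1 (hu ζ ⟨{σ}, ∅, by simpa using hσ, by simp,
      fun u _ _ a _ => (hζ A c u).2 (a σ (Finset.mem_singleton_self σ))⟩)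

theorem irr {R : Type} [Ring R] {A : Type} [AddCommGroup A] [Module R A] (hA : AC R A)
    (hi : Indec R A) (c : A) (θ0 θ1 : PP R 1) (h0 : ¬ θ0.h c) (h1 : ¬ θ1.h c) :
    ∃ φ : PP R 1, φ.h c ∧ ¬ ∃ y z : A, c = y + z ∧ φ.h y ∧ θ0.h y ∧ φ.h z ∧ θ1.h z := by
  by_contra hno
  push Not at hno
  -- compactness for chains
  obtain ⟨Θ, hΘ⟩ := zorn_subset
    {Θ : Set (PP R 1) | ∃ u : A, irr_Adm c θ0 θ1 u ∧ ∀ σ ∈ Θ, σ.h u} (by
    intro ch hch hchain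
    rcases ch.eq_empty_or_nonempty with he | hne
    · refine ⟨∅, ?_, by simp [he]⟩
      refine irr_compact hA c θ0 θ1 ∅ ?_
      intro F hF φ hφ
      obtain ⟨y, z, h2, h3, h4, h5, h6⟩ := hno φ hφ
      have hz : c - y = z := by rw [h2]; abel
      refine ⟨y, h4, by rw [hz]; exact h6, h3, by rw [hz]; exact h5, fun σ hσ => ?_⟩
      exact absurd (hF hσ) (Set.notMem_empty σ)
    · refine ⟨⋃₀ ch, ?_, fun s hs => Set.subset_sUnion_of_mem hs⟩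
      refine irr_compact hA c θ0 θ1 (⋃₀ ch) ?_
      intro F hF φ hφ
      obtain ⟨P, hP, hFP⟩ := maxtype_fin ch hchain hne F hF
      obtain ⟨u, hu1, hu2⟩ := hch hP
      exact ⟨u, hu1.1, hu1.2.1, (hu1.2.2 φ hφ).1, (hu1.2.2 φ hφ).2, fun σ hσ => hu2 σ (hFP hσ)⟩)
  obtain ⟨c1, hc1, hc1Θ⟩ := hΘ.prop
  obtain ⟨f, hf⟩ := ac_hom hA (fun _ : Fin 1 => c) (fun _ : Fin 1 => c1)
    (fun φ hφ => (hc1.2.2 φ hφ).1)
  have hfc : f c = c1 := hf 0
  have hsplit : c - f c1 = (c - c1) + f (c - c1) := by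
    rw [map_sub, hfc]; abel
  have hadm : irr_Adm c θ0 θ1 (f c1) := by
    refine ⟨h_map f θ0 c1 hc1.1, ?_, fun φ hφ => ⟨h_map f φ c1 (hc1.2.2 φ hφ).1, ?_⟩⟩
    · rw [hsplit]
      exact (h_add θ1 _ _).1 hc1.2.1 (h_map f θ1 _ hc1.2.1)
    · rw [hsplit]
      exact (h_add φ _ _).1 (hc1.2.2 φ hφ).2 (h_map f φ _ (hc1.2.2 φ hφ).2)
  have hback : ∀ σ : PP R 1, σ.h (f c1) → σ.h c1 := by
    intro σ hσ
    have hmem : {σ : PP R 1 | σ.h (f c1)} ∈
        {Θ : Set (PP R 1) | ∃ u : A, irr_Adm c θ0 θ1 u ∧ ∀ σ ∈ Θ, σ.h u} :=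
      ⟨f c1, hadm, fun σ hσ => hσ⟩
    have hsub : Θ ⊆ {σ : PP R 1 | σ.h (f c1)} := fun σ hσ => h_map f σ c1 (hc1Θ σ hσ)
    exact hc1Θ σ (hΘ.le_of_ge hmem hsub hσ)
  obtain ⟨s, hs⟩ := ac_hom hA (fun _ : Fin 1 => f c1) (fun _ : Fin 1 => c1)
    (fun φ hφ => hback φ hφ)
  have hsc : s (f c1) = c1 := hs 0
  have hc10 : c1 ≠ 0 := by
    intro h
    apply h1
    have := hc1.2.1
    rw [h, sub_zero] at this
    exact this
  obtain ⟨g, hg⟩ := (le0 hA hi c1 hc10 f s hsc).exists_left_inv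
  have hgc : g c1 = c := by
    have := congrArg (fun q : Module.End R A => q c) hg
    simp only [Module.End.mul_apply, Module.End.one_apply, hfc] at this
    exact this
  apply h0
  rw [← hgc]
  exact h_map g θ0 c1 hc1.1




private noncomputable def ac_pi_al {R : Type} [Ring R] {A B : Type} [AddCommGroup A] [Module R A]
    [AddCommGroup B] [Module R B] (i : A →ₗ[R] B) :
    (B × B) ⊕ ((R × B) ⊕ A) → B →₀ R
  | .inl b => Finsupp.single (b.1 + b.2) 1 - Finsupp.single b.1 1 - Finsupp.single b.2 1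
  | .inr (.inl b) => Finsupp.single (b.1 • b.2) 1 - Finsupp.single b.2 b.1
  | .inr (.inr a) => Finsupp.single (i a) 1

private noncomputable def ac_pi_be {R : Type} [Ring R] {A B N : Type} [AddCommGroup A] [Module R A]
    [AddCommGroup N] [Module R N] (f : A →ₗ[R] N) :
    (B × B) ⊕ ((R × B) ⊕ A) → N
  | .inl _ => 0
  | .inr (.inl _) => 0
  | .inr (.inr a) => f a

private theorem ac_pi_sum {R : Type} [Ring R] {A B : Type} [AddCommGroup A] [Module R A]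
    [AddCommGroup B] [Module R B] (i : A →ₗ[R] B) {M : Type} [AddCommGroup M] [Module R M]
    (u : B → M) :
    (∀ b b' : B, ((ac_pi_al i (.inl (b, b'))).sum fun i r => r • u i) = u (b + b') - u b - u b') ∧
    (∀ (r : R) (b : B), ((ac_pi_al i (.inr (.inl (r, b)))).sum fun i r => r • u i)
      = u (r • b) - r • u b) ∧
    (∀ a : A, ((ac_pi_al i (.inr (.inr a))).sum fun i r => r • u i) = u (i a)) := by
  refine ⟨fun b b' => ?_, fun r b => ?_, fun a => ?_⟩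
  · change Finsupp.linearCombination R u (ac_pi_al i (.inl (b, b'))) = _
    simp [ac_pi_al, map_sub]
  · change Finsupp.linearCombination R u (ac_pi_al i (.inr (.inl (r, b)))) = _
    simp [ac_pi_al, map_sub]
  · change Finsupp.linearCombination R u (ac_pi_al i (.inr (.inr a))) = _
    simp [ac_pi_al]

theorem ac_pi {R : Type} [Ring R] {N : Type} [AddCommGroup N] [Module R N] (hN : AC R N)
    (A B : Type) [AddCommGroup A] [Module R A] [AddCommGroup B] [Module R B] (i : A →ₗ[R] B)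
    (hi : ∀ (n : ℕ) (φ : PP R n) (x : Fin n → A), φ.H (fun j => i (x j)) → φ.H x)
    (f : A →ₗ[R] N) : ∃ g : B →ₗ[R] N, ∀ a, g (i a) = f a := by
  classical
  have key : ∀ F : Finset ((B × B) ⊕ ((R × B) ⊕ A)), ∃ x : B → N, ∀ j ∈ F,
      ((ac_pi_al i j).sum fun i r => r • x i) = ac_pi_be (B := B) f j := by
    intro F
    let T : Finset A := (F.biUnion fun j => match j with
      | .inl _ => (∅ : Finset A)
      | .inr (.inl _) => ∅
      | .inr (.inr a) => {a})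
    have hT : ∀ a : A, (Sum.inr (Sum.inr a) : (B × B) ⊕ ((R × B) ⊕ A)) ∈ F → a ∈ T := by
      intro a ha
      simp only [T, Finset.mem_biUnion]
      exact ⟨_, ha, by simp⟩
    let β : (B × B) ⊕ ((R × B) ⊕ A) → Fin T.card → R := fun j k => match j with
      | .inl _ => 0
      | .inr (.inl _) => 0
      | .inr (.inr a) => if ((T.equivFin.symm k : T) : A) = a then -1 else 0
    have hβ : ∀ (M : Type) [AddCommGroup M] [Module R M] (h : A → M) (a : A), a ∈ T →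
        ∑ k, β (.inr (.inr a)) k • h ((T.equivFin.symm k : T) : A) = - h a := by
      intro M _ _ h a ha
      rw [Finset.sum_eq_single (T.equivFin ⟨a, ha⟩)]
      · simp [β]
      · intro k _ hk
        have : ((T.equivFin.symm k : T) : A) ≠ a := by
          intro h'
          apply hk
          have : T.equivFin.symm k = ⟨a, ha⟩ := Subtype.ext h'
          rw [← this]; simp
        simp [β, this]
      · simp
    obtain ⟨φ, hφ⟩ := sysPP B ((B × B) ⊕ ((R × B) ⊕ A)) F (ac_pi_al i) β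
    have h1 : φ.H (fun k : Fin T.card => i ((T.equivFin.symm k : T) : A)) := by
      rw [hφ]
      refine ⟨id, ?_⟩
      rintro (⟨b, b'⟩ | ⟨r, b⟩ | a) hj
      · rw [(ac_pi_sum i _).1]; simp [β]
      · rw [(ac_pi_sum i _).2.1]; simp [β]
      · rw [(ac_pi_sum i _).2.2, hβ B (fun a => i a) a (hT a hj)]; simp
    have h2 := hi _ φ _ h1
    rw [hφ] at h2
    obtain ⟨u, hu⟩ := h2
    refine ⟨fun b => f (u b), ?_⟩
    rintro (⟨b, b'⟩ | ⟨r, b⟩ | a) hj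
    · have := hu _ hj
      rw [(ac_pi_sum i _).1] at this ⊢
      simp only [β, zero_smul, Finset.sum_const_zero, add_zero] at this
      rw [← map_sub, ← map_sub, this]; simp [ac_pi_be]
    · have := hu _ hj
      rw [(ac_pi_sum i _).2.1] at this ⊢
      simp only [β, zero_smul, Finset.sum_const_zero, add_zero] at this
      rw [← map_smul, ← map_sub, this]; simp [ac_pi_be]
    · have := hu _ hj
      rw [(ac_pi_sum i _).2.2] at this ⊢
      rw [hβ A (fun a => a) a (hT a hj)] at this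
      rw [add_neg_eq_zero] at this
      rw [this]; rfl
  obtain ⟨X, hX⟩ := hN B ((B × B) ⊕ ((R × B) ⊕ A)) (ac_pi_al i) (ac_pi_be f) key
  refine ⟨{ toFun := X, map_add' := ?_, map_smul' := ?_ }, ?_⟩
  · intro b b'
    have := hX (.inl (b, b'))
    rw [(ac_pi_sum i _).1] at this
    have h0 : X (b + b') - X b - X b' = 0 := this
    rw [sub_sub, sub_eq_zero] at h0
    exact h0
  · intro r b
    have := hX (.inr (.inl (r, b)))
    rw [(ac_pi_sum i _).2.1] at this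
    have h0 : X (r • b) - r • X b = 0 := this
    simpa [sub_eq_zero] using h0
  · intro a
    have := hX (.inr (.inr a))
    rw [(ac_pi_sum i _).2.2] at this
    exact this




theorem gen {R : Type} [Ring R] (Q : Set (Σ n : ℕ, PP R n × PP R n)) :
    ∃ (N : Type) (_ : AddCommGroup N) (_ : Module R N), InD Q N ∧ ∀ φ ψ : PP R 1,
      (∀ x : N, φ.h x → ψ.h x) → ∀ (M : Type) [AddCommGroup M] [Module R M], InD Q M →
        ∀ x : M, φ.h x → ψ.h x := by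
  classical
  have key : ∀ t : PP R 1 × PP R 1, ∃ (M : Type) (_ : AddCommGroup M) (_ : Module R M),
      InD Q M ∧ ∃ x : M, (¬ ∀ (M' : Type) [AddCommGroup M'] [Module R M'], InD Q M' →
        ∀ x : M', t.1.h x → t.2.h x) → t.1.h x ∧ ¬ t.2.h x := by
    intro t
    by_cases h : ∀ (M' : Type) [AddCommGroup M'] [Module R M'], InD Q M' →
        ∀ x : M', t.1.h x → t.2.h x
    · refine ⟨PUnit, inferInstance, inferInstance, ?_, 0, fun h' => absurd h h'⟩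
      intro q _ x _
      exact ⟨fun _ => 0, fun i => Subsingleton.elim _ _⟩
    · have h0 := h
      simp only [not_forall] at h
      obtain ⟨M', i1, i2, hM', x, hx, hx'⟩ := h
      exact ⟨M', i1, i2, hM', x, fun _ => ⟨hx, hx'⟩⟩
  choose M i1 i2 hM x hx using key
  refine ⟨∀ t, M t, inferInstance, inferInstance, ?_, ?_⟩
  · intro q hq y hy
    rw [H_pi]
    intro t
    exact hM t q hq _ ((H_pi M q.2.1 y).1 hy t)
  · intro φ ψ himp M' _ _ hM' x' hx'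
    by_contra hne
    have h1 := hx (φ, ψ) (fun hall => hne (hall M' hM' x' hx'))
    have h2 : φ.h (Pi.single (φ, ψ) (x (φ, ψ)) : ∀ t, M t) := by
      unfold PP.h
      rw [H_pi]
      intro t
      by_cases ht : t = (φ, ψ)
      · subst ht
        simp only [Pi.single_eq_same]
        exact h1.1
      · simp only [Pi.single_eq_of_ne ht]
        exact (h_add φ (0 : M t) 0).2.2.2
    have h3 := himp _ h2
    unfold PP.h at h3
    have h4 := (H_pi M ψ _).1 h3 (φ, ψ)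
    simp only [Pi.single_eq_same] at h4
    exact h1.2 h4




theorem tree {α : Type} [DistribLattice α] (P : Set α) (hne : ∃ a ∈ P, ∃ b ∈ P, b < a)
    (hw : ∀ a ∈ P, ∀ b ∈ P, b < a → ∃ c ∈ P, ∃ d ∈ P, ∃ c' ∈ P, ∃ d' ∈ P, b ≤ c ∧ b ≤ d ∧
      c < c' ∧ d < d' ∧ c' ≤ c ⊔ d ∧ d' ≤ c ⊔ d ∧ c ⊔ d ≤ a) :
    ∃ ψ φ : List Bool → α, (∀ s, ¬ φ s ≤ ψ s) ∧ (∀ s i, ψ s ≤ ψ (i :: s)) ∧
      (∀ s i, φ (i :: s) ≤ φ s) ∧ ∀ s i, φ (i :: s) ≤ ψ (false :: s) ⊔ ψ (true :: s) := by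
  classical
  obtain ⟨a, ha, b, hb, hba⟩ := hne
  have hstep : ∀ q : {q : α × α // q.1 ∈ P ∧ q.2 ∈ P ∧ q.1 < q.2},
      ∃ f : Bool → {q : α × α // q.1 ∈ P ∧ q.2 ∈ P ∧ q.1 < q.2},
        (∀ i, q.1.1 ≤ (f i).1.1) ∧ (∀ i, (f i).1.2 ≤ q.1.2) ∧
        (∀ i, (f i).1.2 ≤ (f false).1.1 ⊔ (f true).1.1) := by
    rintro ⟨⟨u, v⟩, hu, hv, huv⟩
    obtain ⟨c, hc, d, hd, c', hc', d', hd', h1, h2, h3, h4, h5, h6, h7⟩ := hw v hv u hu huv
    refine ⟨fun i => Bool.rec ⟨(c, c'), hc, hc', h3⟩ ⟨(d, d'), hd, hd', h4⟩ i, ?_, ?_, ?_⟩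
    · intro i; cases i
      · exact h1
      · exact h2
    · intro i; cases i
      · exact h5.trans h7
      · exact h6.trans h7
    · intro i; cases i
      · exact h5
      · exact h6
  choose step hs1 hs2 hs3 using hstep
  let node : List Bool → {q : α × α // q.1 ∈ P ∧ q.2 ∈ P ∧ q.1 < q.2} := fun s =>
    List.rec ⟨(b, a), hb, ha, hba⟩ (fun i _ r => step r i) s
  refine ⟨fun s => (node s).1.1, fun s => (node s).1.2, ?_, ?_, ?_, ?_⟩
  · intro s h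
    exact absurd (node s).2.2.2 (not_lt_of_ge h)
  · intro s i
    exact hs1 (node s) i
  · intro s i
    exact hs2 (node s) i
  · intro s i
    exact hs3 (node s) i




def latt_al {α : Type} [DistribLattice α] [BoundedOrder α] (ψ : List Bool → α) : List Bool → α
  | [] => ⊤
  | i :: s => latt_al ψ s ⊓ ψ ((!i) :: s)

def latt_be {α : Type} [DistribLattice α] [BoundedOrder α] (ψ : List Bool → α) : List Bool → α
  | [] => ⊥
  | i :: s => latt_be ψ s ⊔ (latt_al ψ s ⊓ ψ (i :: s))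

theorem latt {α : Type} [DistribLattice α] [BoundedOrder α] (ψ φ : List Bool → α)
    (h1 : ∀ s, ¬ φ s ≤ ψ s) (h2 : ∀ s i, ψ s ≤ ψ (i :: s)) (h3 : ∀ s i, φ (i :: s) ≤ φ s)
    (h4 : ∀ s i, φ (i :: s) ≤ ψ (false :: s) ⊔ ψ (true :: s)) :
    ∃ P : Set α, (∀ a ∈ P, ∀ b, a ≤ b → b ∈ P) ∧ (∀ a ∈ P, ∀ b ∈ P, a ⊓ b ∈ P) ∧ ⊤ ∈ P ∧
      (∃ a, a ∉ P) ∧
      ∀ a, a ∉ P → ∃ b c, b ∉ P ∧ c ∉ P ∧ a ≤ b ∧ a ≤ c ∧ b ⊔ c ∈ P := by
  classical
  have h4' : ∀ s i, φ (i :: s) ≤ ψ (i :: s) ⊔ ψ ((!i) :: s) := by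
    intro s i
    cases i
    · exact h4 s false
    · exact (h4 s true).trans (le_of_eq (sup_comm _ _))
  have F1 : ∀ s, φ s ≤ ψ s ⊔ latt_al ψ s := by
    intro s
    induction s with
    | nil => exact le_sup_of_le_right le_top
    | cons i s ih =>
      show φ (i :: s) ≤ ψ (i :: s) ⊔ (latt_al ψ s ⊓ ψ ((!i) :: s))
      rw [sup_inf_left]
      exact le_inf (((h3 s i).trans ih).trans (sup_le_sup_right (h2 s i) _)) (h4' s i)
  have F2 : ∀ s, latt_be ψ s ≤ ψ s := by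
    intro s
    induction s with
    | nil => exact bot_le
    | cons i s ih =>
      show latt_be ψ s ⊔ (latt_al ψ s ⊓ ψ (i :: s)) ≤ ψ (i :: s)
      exact sup_le (ih.trans (h2 s i)) inf_le_right
  have F3 : ∀ s i, latt_al ψ (i :: s) ≤ ψ ((!i) :: s) := fun s i => inf_le_right
  have mψ : ∀ s t, s <:+ t → ψ s ≤ ψ t := by
    rintro s _ ⟨u, rfl⟩
    induction u with
    | nil => exact le_refl _
    | cons i u ih => exact ih.trans (h2 _ i)
  have mφ : ∀ s t, s <:+ t → φ t ≤ φ s := by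
    rintro s _ ⟨u, rfl⟩
    induction u with
    | nil => exact le_refl _
    | cons i u ih => exact (h3 _ i).trans ih
  have suf : ∀ (s t : List Bool), s <:+ t → s.length < t.length → ∃ j, (j :: s) <:+ t := by
    rintro s _ ⟨u, rfl⟩ hlt
    rcases List.eq_nil_or_concat u with rfl | ⟨u', j, rfl⟩
    · simp at hlt
    · exact ⟨j, u', by simp⟩
  have F5 : ∀ s t : List Bool, ¬ s <:+ t → s.length ≤ t.length → φ t ≤ ψ t ⊔ latt_be ψ s := by
    intro s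
    induction s with
    | nil =>
      intro t ht
      exact absurd (List.nil_suffix) ht
    | cons i s ih =>
      intro t ht hl
      have hl' : s.length < t.length := by
        simpa using hl
      show φ t ≤ ψ t ⊔ (latt_be ψ s ⊔ (latt_al ψ s ⊓ ψ (i :: s)))
      by_cases hs : s <:+ t
      · obtain ⟨j, hj⟩ := suf s t hs hl'
        have hji : j = !i := by
          cases i <;> cases j <;> simp_all
        subst hji
        have e1 : φ t ≤ ψ t ⊔ latt_al ψ s :=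
          ((mφ s t hs).trans (F1 s)).trans (sup_le_sup_right (mψ s t hs) _)
        have e2 : φ t ≤ ψ t ⊔ ψ (i :: s) := by
          have := (mφ _ t hj).trans (h4' s (!i))
          rw [Bool.not_not] at this
          exact this.trans (sup_le_sup_right (mψ _ t hj) _)
        have e3 : φ t ≤ ψ t ⊔ (latt_al ψ s ⊓ ψ (i :: s)) := by
          rw [sup_inf_left]
          exact le_inf e1 e2
        exact e3.trans (sup_le_sup_left le_sup_right _)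
      · exact (ih t hs hl'.le).trans (sup_le_sup_left le_sup_left _)
  have F4 : ∀ s t : List Bool, s.length ≤ t.length →
      φ t ≤ ψ t ⊔ (latt_al ψ s ⊔ latt_be ψ s) := by
    intro s t hl
    by_cases hs : s <:+ t
    · have e1 : φ t ≤ ψ t ⊔ latt_al ψ s :=
        ((mφ s t hs).trans (F1 s)).trans (sup_le_sup_right (mψ s t hs) _)
      exact e1.trans (sup_le_sup_left le_sup_left _)
    · exact (F5 s t hs hl).trans (sup_le_sup_left le_sup_right _)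
  obtain ⟨S, hS⟩ : ∃ S : Set (Set α), S = {P | (∀ a ∈ P, ∀ b, a ≤ b → b ∈ P) ∧
      (∀ a ∈ P, ∀ b ∈ P, a ⊓ b ∈ P) ∧ ⊤ ∈ P ∧ (∀ s, latt_al ψ s ⊔ latt_be ψ s ∈ P) ∧
      ∀ s, ∀ a ∈ P, ¬ a ⊓ φ s ≤ ψ s} := ⟨_, rfl⟩
  have h0 : {a : α | ∃ n : ℕ, ∀ t : List Bool, n ≤ t.length → φ t ≤ ψ t ⊔ a} ∈ S := by
    rw [hS]
    refine ⟨?_, ?_, ?_, ?_, ?_⟩
    · rintro a ⟨n, hn⟩ b hab
      exact ⟨n, fun t ht => (hn t ht).trans (sup_le_sup_left hab _)⟩
    · rintro a ⟨n, hn⟩ b ⟨m, hm⟩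
      refine ⟨max n m, fun t ht => ?_⟩
      rw [sup_inf_left]
      exact le_inf (hn t (le_of_max_le_left ht)) (hm t (le_of_max_le_right ht))
    · exact ⟨0, fun t _ => le_sup_of_le_right le_top⟩
    · intro s
      exact ⟨s.length, fun t ht => F4 s t ht⟩
    · rintro s a ⟨n, hn⟩ hle
      let t : List Bool := List.replicate n false ++ s
      have hst : s <:+ t := ⟨_, rfl⟩
      have hl : n ≤ t.length := by simp [t]
      apply h1 t
      have e1 : φ t ≤ φ t ⊓ (ψ t ⊔ a) := le_inf (le_refl _) (hn t hl)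
      refine e1.trans ?_
      rw [inf_sup_left]
      refine sup_le inf_le_right ?_
      refine le_trans ?_ (mψ s t hst)
      refine le_trans ?_ hle
      exact le_inf inf_le_right (inf_le_left.trans (mφ s t hst))
  obtain ⟨P, hP0, hPm⟩ := zorn_subset_nonempty S (by
    intro c hcS hc hcne
    refine ⟨⋃₀ c, ?_, fun s hs => Set.subset_sUnion_of_mem hs⟩
    rw [hS]
    refine ⟨?_, ?_, ?_, ?_, ?_⟩
    · rintro a ⟨s, hs, has⟩ b hab
      have := hcS hs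
      rw [hS] at this
      exact ⟨s, hs, this.1 a has b hab⟩
    · rintro a ⟨s, hs, has⟩ b ⟨t, ht, hbt⟩
      rcases hc.total hs ht with h | h
      · have := hcS ht
        rw [hS] at this
        exact ⟨t, ht, this.2.1 a (h has) b hbt⟩
      · have := hcS hs
        rw [hS] at this
        exact ⟨s, hs, this.2.1 a has b (h hbt)⟩
    · obtain ⟨s, hs⟩ := hcne
      have := hcS hs
      rw [hS] at this
      exact ⟨s, hs, this.2.2.1⟩
    · intro u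
      obtain ⟨s, hs⟩ := hcne
      have := hcS hs
      rw [hS] at this
      exact ⟨s, hs, this.2.2.2.1 u⟩
    · rintro u a ⟨s, hs, has⟩
      have := hcS hs
      rw [hS] at this
      exact this.2.2.2.2 u a has) _ h0
  have hPS : P ∈ S := hPm.prop
  have hPS' := hPS
  rw [hS] at hPS'
  obtain ⟨g1, g2, g3, g4, g5⟩ := hPS'
  refine ⟨P, g1, g2, g3, ⟨ψ [], fun h => g5 [] _ h inf_le_left⟩, ?_⟩
  intro a ha
  have hex : ∃ c ∈ P, ∃ s, c ⊓ a ⊓ φ s ≤ ψ s := by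
    by_contra hcon
    push Not at hcon
    have hnew : {b | ∃ c ∈ P, c ⊓ a ≤ b} ∈ S := by
      rw [hS]
      refine ⟨?_, ?_, ?_, ?_, ?_⟩
      · rintro b ⟨c, hc, hcb⟩ b' hbb
        exact ⟨c, hc, hcb.trans hbb⟩
      · rintro b ⟨c, hc, hcb⟩ b' ⟨d, hd, hdb⟩
        refine ⟨c ⊓ d, g2 c hc d hd, ?_⟩
        refine le_inf ?_ ?_
        · exact (inf_le_inf_right a inf_le_left).trans hcb
        · exact (inf_le_inf_right a inf_le_right).trans hdb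
      · exact ⟨⊤, g3, le_top⟩
      · intro s
        exact ⟨_, g4 s, inf_le_left⟩
      · rintro s b ⟨c, hc, hcb⟩ hle
        exact hcon c hc s ((inf_le_inf_right _ hcb).trans hle)
    have hsub : P ⊆ {b | ∃ c ∈ P, c ⊓ a ≤ b} := fun b hb => ⟨b, hb, inf_le_left⟩
    have heq := hPm.eq_of_subset hnew hsub
    apply ha
    rw [heq]
    exact ⟨⊤, g3, inf_le_right⟩
  obtain ⟨c, hc, s, hcs⟩ := hex
  refine ⟨a ⊔ latt_al ψ (false :: s), a ⊔ latt_be ψ (false :: s), ?_, ?_, le_sup_left, le_sup_left,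
    ?_⟩
  · intro hmem
    apply g5 (true :: s) _ (g2 _ hc _ hmem)
    have e : c ⊓ (a ⊔ latt_al ψ (false :: s)) ⊓ φ (true :: s) ≤
        (c ⊓ a ⊓ φ (true :: s)) ⊔ latt_al ψ (false :: s) := by
      rw [inf_sup_left, inf_sup_right]
      exact sup_le_sup_left (inf_le_left.trans inf_le_right) _
    refine e.trans (sup_le ?_ (F3 s false))
    exact ((inf_le_inf_left _ (h3 s true)).trans hcs).trans (h2 s true)
  · intro hmem
    apply g5 (false :: s) _ (g2 _ hc _ hmem)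
    have e : c ⊓ (a ⊔ latt_be ψ (false :: s)) ⊓ φ (false :: s) ≤
        (c ⊓ a ⊓ φ (false :: s)) ⊔ latt_be ψ (false :: s) := by
      rw [inf_sup_left, inf_sup_right]
      exact sup_le_sup_left (inf_le_left.trans inf_le_right) _
    refine e.trans (sup_le ?_ (F2 _))
    exact ((inf_le_inf_left _ (h3 s false)).trans hcs).trans (h2 s false)
  · refine g1 _ (g4 (false :: s)) _ ?_
    exact sup_le_sup le_sup_right le_sup_right


theorem sdc2 {R : Type} [Ring R] {M : Type} [AddCommGroup M] [Module R M] (hM : AC R M) (a : M)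
    (e : Module.End R M) (he : ∀ m, e (e m) = e m) (hea : e a = a)
    (hh : ∀ f : Module.End R M, (∃ s : Module.End R M, s (f a) = a) →
      ∃ s : Module.End R M, ∀ m, s (f (e m)) = e m)
    (hc : ∀ ψ : PP R 1, ¬ ψ.h a → ∃ φ ψ0 ψ1 : PP R 1, φ.h a ∧ ¬ ψ0.h a ∧ ¬ ψ1.h a ∧
      (∀ x : M, φ.h x → ψ.h x → ψ0.h x ∧ ψ1.h x) ∧
      (∃ y z : M, a = y + z ∧ ψ0.h y ∧ ψ1.h z) ∧
      ∀ (κ : PP R 1) (x : M), κ.h x → (∃ y z : M, x = y + z ∧ ψ0.h y ∧ ψ1.h z) →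
        ∃ y z : M, x = y + z ∧ (κ.h y ∧ ψ0.h y) ∧ (κ.h z ∧ ψ1.h z))
    (A B : Submodule R (LinearMap.range e)) (hAB : IsCompl A B) : ¬ Indec R A := by
  intro hI
  obtain ⟨i, hi⟩ : ∃ i : A →ₗ[R] M, i = (LinearMap.range e).subtype ∘ₗ A.subtype := ⟨_, rfl⟩
  obtain ⟨p, hp⟩ : ∃ p : M →ₗ[R] A, p = (Submodule.projectionOnto A B hAB) ∘ₗ
      (LinearMap.rangeRestrict e) := ⟨_, rfl⟩
  have hix : ∀ x : A, i x = ((x : LinearMap.range e) : M) := by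
    intro x
    rw [hi]
    rfl
  have hei : ∀ x : A, e (i x) = i x := by
    intro x
    rw [hix]
    obtain ⟨m, hm⟩ := (x : LinearMap.range e).2
    rw [← hm, he]
  have hpi : ∀ x : A, p (i x) = x := by
    intro x
    have h1 : LinearMap.rangeRestrict e (i x) = (x : LinearMap.range e) := by
      apply Subtype.ext
      show e (i x) = _
      rw [hei, hix]
    rw [hp]
    show (Submodule.projectionOnto A B hAB) (LinearMap.rangeRestrict e (i x)) = x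
    rw [h1]
    exact Submodule.projectionOnto_apply_left hAB x
  obtain ⟨g, hg⟩ : ∃ g : M →ₗ[R] M, ∀ m, g m = i (p m) := ⟨i ∘ₗ p, fun m => rfl⟩
  have hgi : ∀ x : A, g (i x) = i x := by
    intro x
    rw [hg, hpi]
  -- claim 1
  have claim : ∃ ψ : PP R 1, ψ.h (a - g a) ∧ ¬ ψ.h (g a) := by
    by_contra hcon
    push Not at hcon
    obtain ⟨t, ht⟩ := ac_hom hM (fun _ : Fin 1 => a - g a) (fun _ : Fin 1 => g a)
      (fun φ h => hcon φ h)
    have ht' : t (a - g a) = g a := ht 0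
    obtain ⟨s, hs⟩ := hh (e - g) ⟨LinearMap.id + t, by
      show (LinearMap.id + t : M →ₗ[R] M) ((e - g : M →ₗ[R] M) a) = a
      rw [LinearMap.sub_apply, hea, LinearMap.add_apply, LinearMap.id_apply, ht',
        sub_add_cancel]⟩
    obtain ⟨hnt, _⟩ := hI
    obtain ⟨x, hx⟩ := exists_ne (0 : A)
    apply hx
    have h1 := hs (i x)
    rw [hei, LinearMap.sub_apply, hei, hgi, sub_self, map_zero] at h1
    have h2 : p (i x) = 0 := by rw [← h1, map_zero]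
    rw [hpi] at h2
    exact h2
  obtain ⟨ψ, hψ2, hψ1⟩ := claim
  have hψa : ¬ ψ.h a := fun h => hψ1 (h_map g ψ a h)
  obtain ⟨φ', ψ0, ψ1, hφ', h0, h1, hm, ⟨y, z, hyz, hy, hz⟩, hd⟩ := hc ψ hψa
  have hφ'2 : φ'.h (a - g a) := (h_add φ' a (g a)).2.2.1 hφ' (h_map g φ' a hφ')
  have hn0 : ¬ ψ0.h (g a) := by
    intro h
    apply h0
    have := (h_add ψ0 (g a) (a - g a)).1 h (hm _ hφ'2 hψ2).1
    rwa [add_sub_cancel] at this
  have hn1 : ¬ ψ1.h (g a) := by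
    intro h
    apply h1
    have := (h_add ψ1 (g a) (a - g a)).1 h (hm _ hφ'2 hψ2).2
    rwa [add_sub_cancel] at this
  have hp0 : ¬ ψ0.h (p a) := by
    intro h
    apply hn0
    rw [hg]
    exact h_map i ψ0 _ h
  have hp1 : ¬ ψ1.h (p a) := by
    intro h
    apply hn1
    rw [hg]
    exact h_map i ψ1 _ h
  have hAC : AC R A := (ac_retract i p hpi).1 hM
  obtain ⟨φ, hφ, hno⟩ := irr hAC hI (p a) ψ0 ψ1 hp0 hp1
  have hφ1 : φ.h (g a) := by
    rw [hg]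
    exact h_map i φ _ hφ
  obtain ⟨y', z', hyz', ⟨hy1, hy2⟩, hz1, hz2⟩ := hd φ (g a) hφ1
    ⟨g y, g z, by rw [← map_add, ← hyz], h_map g ψ0 y hy, h_map g ψ1 z hz⟩
  apply hno
  refine ⟨p y', p z', ?_, h_map p φ _ hy1, h_map p ψ0 _ hy2, h_map p φ _ hz1, h_map p ψ1 _ hz2⟩
  rw [← map_add, ← hyz', hg, hpi]


theorem extF {β : Type} [Lattice β] (I P' : Set β) (hP : P' ⊆ I) (hne : P'.Nonempty)
    (h1 : ∀ a ∈ P', ∀ b ∈ I, a ≤ b → b ∈ P') (h2 : ∀ a ∈ P', ∀ b ∈ P', a ⊓ b ∈ P') :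
    ∃ P : Set β, (∀ a ∈ P, ∀ b, a ≤ b → b ∈ P) ∧ (∀ a ∈ P, ∀ b ∈ P, a ⊓ b ∈ P) ∧ P' ⊆ P ∧
      (∀ a ∈ P, a ∈ I → a ∈ P') ∧ ∀ a, a ∉ P → ∃ c ∈ P, ∃ d ∈ I, d ∉ P' ∧ c ⊓ a ≤ d := by
  obtain ⟨S, hS⟩ : ∃ S : Set (Set β), S = {P | (∀ a ∈ P, ∀ b, a ≤ b → b ∈ P) ∧
      (∀ a ∈ P, ∀ b ∈ P, a ⊓ b ∈ P) ∧ P' ⊆ P ∧ ∀ a ∈ P, a ∈ I → a ∈ P'} := ⟨_, rfl⟩
  have h0 : {b | ∃ a ∈ P', a ≤ b} ∈ S := by
    rw [hS]
    refine ⟨?_, ?_, ?_, ?_⟩
    · rintro a ⟨c, hc, hca⟩ b hab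
      exact ⟨c, hc, hca.trans hab⟩
    · rintro a ⟨c, hc, hca⟩ b ⟨d, hd, hdb⟩
      exact ⟨c ⊓ d, h2 c hc d hd, inf_le_inf hca hdb⟩
    · intro a ha
      exact ⟨a, ha, le_refl a⟩
    · rintro a ⟨c, hc, hca⟩ haI
      exact h1 c hc a haI hca
  obtain ⟨P, hP0, hPm⟩ := zorn_subset_nonempty S (by
    intro c hcS hc hcne
    refine ⟨⋃₀ c, ?_, fun s hs => Set.subset_sUnion_of_mem hs⟩
    rw [hS]
    refine ⟨?_, ?_, ?_, ?_⟩
    · rintro a ⟨s, hs, has⟩ b hab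
      have := hcS hs
      rw [hS] at this
      exact ⟨s, hs, this.1 a has b hab⟩
    · rintro a ⟨s, hs, has⟩ b ⟨t, ht, hbt⟩
      rcases hc.total hs ht with h | h
      · have := hcS ht
        rw [hS] at this
        exact ⟨t, ht, this.2.1 a (h has) b hbt⟩
      · have := hcS hs
        rw [hS] at this
        exact ⟨s, hs, this.2.1 a has b (h hbt)⟩
    · obtain ⟨s, hs⟩ := hcne
      have := hcS hs
      rw [hS] at this
      exact this.2.2.1.trans (Set.subset_sUnion_of_mem hs)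
    · rintro a ⟨s, hs, has⟩ haI
      have := hcS hs
      rw [hS] at this
      exact this.2.2.2 a has haI) _ h0
  have hPS : P ∈ S := hPm.prop
  have hPS' := hPS
  rw [hS] at hPS'
  obtain ⟨g1, g2, g3, g4⟩ := hPS'
  refine ⟨P, g1, g2, g3, g4, ?_⟩
  intro a ha
  by_contra hcon
  push Not at hcon
  have hnew : {b | ∃ c ∈ P, c ⊓ a ≤ b} ∈ S := by
    rw [hS]
    refine ⟨?_, ?_, ?_, ?_⟩
    · rintro b ⟨c, hc, hcb⟩ b' hbb
      exact ⟨c, hc, hcb.trans hbb⟩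
    · rintro b ⟨c, hc, hcb⟩ b' ⟨d, hd, hdb⟩
      refine ⟨c ⊓ d, g2 c hc d hd, ?_⟩
      refine le_inf ?_ ?_
      · exact (inf_le_inf_right a inf_le_left).trans hcb
      · exact (inf_le_inf_right a inf_le_right).trans hdb
    · intro b hb
      exact ⟨b, g3 hb, inf_le_left⟩
    · rintro b ⟨c, hc, hcb⟩ hbI
      by_contra hb
      exact hcon c hc b hbI hb hcb
  have hsub : P ⊆ {b | ∃ c ∈ P, c ⊓ a ≤ b} := fun b hb => ⟨b, hb, inf_le_left⟩
  have heq := hPm.eq_of_subset hnew hsub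
  apply ha
  obtain ⟨c0, hc0⟩ := hne
  rw [heq]
  exact ⟨c0, g3 hc0, inf_le_right⟩

/-- the pp-definable subgroup -/
def ppD {R : Type} [Ring R] (N : Type) [AddCommGroup N] [Module R N] (φ : PP R 1) :
    AddSubgroup N where
  carrier := {x | φ.h x}
  add_mem' := fun {a b} ha hb => (h_add φ a b).1 ha hb
  zero_mem' := (h_add φ (0 : N) 0).2.2.2
  neg_mem' := fun {a} ha => (h_add φ a a).2.1 ha

theorem mem_ppD {R : Type} [Ring R] {N : Type} [AddCommGroup N] [Module R N] (φ : PP R 1) (x : N) :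
    x ∈ ppD N φ ↔ φ.h x := Iff.rfl

theorem andTwo {R : Type} [Ring R] (φ ψ : PP R 1) :
    ∃ χ : PP R 1, ∀ (M : Type) [AddCommGroup M] [Module R M] (x : M),
      χ.h x ↔ φ.h x ∧ ψ.h x := by
  classical
  obtain ⟨χ, hχ⟩ := andFin ({φ, ψ} : Finset (PP R 1))
  refine ⟨χ, fun M _ _ x => ?_⟩
  rw [PP.h, hχ]
  simp [PP.h]

theorem sumTwo {R : Type} [Ring R] (φ ψ : PP R 1) :
    ∃ χ : PP R 1, ∀ (M : Type) [AddCommGroup M] [Module R M] (x : M),
      χ.h x ↔ ∃ y z : M, x = y + z ∧ φ.h y ∧ ψ.h z := by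
  obtain ⟨χ, hχ⟩ := (formulas (R := R)).2.2.1 φ ψ
  refine ⟨χ, fun M _ _ x => ?_⟩
  rw [hχ]
  constructor
  · rintro ⟨u, t, h1, h2, h3⟩
    exact ⟨u, t, h3, h1, h2⟩
  · rintro ⟨u, t, h3, h1, h2⟩
    exact ⟨u, t, h1, h2, h3⟩

/-- the lattice of pp-definable subgroups of `N` -/
def ppL (R : Type) [Ring R] (N : Type) [AddCommGroup N] [Module R N] :
    Sublattice (AddSubgroup N) where
  carrier := Set.range (ppD (R := R) N)
  supClosed' := by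
    rintro _ ⟨φ, rfl⟩ _ ⟨ψ, rfl⟩
    obtain ⟨χ, hχ⟩ := sumTwo φ ψ
    refine ⟨χ, ?_⟩
    ext x
    rw [mem_ppD, hχ, AddSubgroup.mem_sup]
    constructor
    · rintro ⟨y, z, h, hy, hz⟩
      exact ⟨y, hy, z, hz, h.symm⟩
    · rintro ⟨y, hy, z, hz, h⟩
      exact ⟨y, z, h.symm, hy, hz⟩
  infClosed' := by
    rintro _ ⟨φ, rfl⟩ _ ⟨ψ, rfl⟩
    obtain ⟨χ, hχ⟩ := andTwo φ ψ
    refine ⟨χ, ?_⟩
    ext x
    rw [mem_ppD, hχ, AddSubgroup.mem_inf]
    exact Iff.rfl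

/-- the pp-definable subgroup as an element of the lattice -/
def ppd {R : Type} [Ring R] (N : Type) [AddCommGroup N] [Module R N] (φ : PP R 1) : ppL R N :=
  ⟨ppD N φ, ⟨φ, rfl⟩⟩

theorem ppd_le {R : Type} [Ring R] {N : Type} [AddCommGroup N] [Module R N] (φ ψ : PP R 1) :
    ppd N φ ≤ ppd N ψ ↔ ∀ x : N, φ.h x → ψ.h x := Iff.rfl

theorem ppd_surj {R : Type} [Ring R] {N : Type} [AddCommGroup N] [Module R N] (b : ppL R N) :
    ∃ φ : PP R 1, ppd N φ = b := by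
  obtain ⟨b, φ, rfl⟩ := b
  exact ⟨φ, rfl⟩

theorem ppd_sup {R : Type} [Ring R] {N : Type} [AddCommGroup N] [Module R N] (φ ψ χ : PP R 1)
    (hχ : ∀ x : N, χ.h x ↔ ∃ y z : N, x = y + z ∧ φ.h y ∧ ψ.h z) :
    ppd N χ = ppd N φ ⊔ ppd N ψ := by
  apply Subtype.ext
  show ppD N χ = ppD N φ ⊔ ppD N ψ
  ext x
  rw [mem_ppD, hχ, AddSubgroup.mem_sup]
  constructor
  · rintro ⟨y, z, h, hy, hz⟩
    exact ⟨y, hy, z, hz, h.symm⟩
  · rintro ⟨y, hy, z, hz, h⟩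
    exact ⟨y, z, h.symm, hy, hz⟩


theorem mainN {R : Type} [Ring R] (Q : Set (Σ n : ℕ, PP R n × PP R n)) (N : Type) [AddCommGroup N]
    [Module R N] (hN : InD Q N) (β0 β1 : PP R 1) (hβ : ppd N β0 ≤ ppd N β1)
    (hdist : ∀ φ ψ χ : PP R 1, ppd N β0 ≤ ppd N φ → ppd N φ ≤ ppd N β1 →
      ppd N β0 ≤ ppd N ψ → ppd N ψ ≤ ppd N β1 → ppd N β0 ≤ ppd N χ → ppd N χ ≤ ppd N β1 →
      ∀ x : N, φ.h x → (∃ y z : N, x = y + z ∧ ψ.h y ∧ χ.h z) →
      ∃ y z : N, x = y + z ∧ (φ.h y ∧ ψ.h y) ∧ (φ.h z ∧ χ.h z))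
    (P : Set (PP R 1)) (hP : ∀ φ ∈ P, ppd N β0 ≤ ppd N φ ∧ ppd N φ ≤ ppd N β1)
    (hne : ∃ φ ∈ P, ∃ ψ ∈ P, ppd N ψ < ppd N φ)
    (hw : ∀ φ ∈ P, ∀ ψ ∈ P, ppd N ψ < ppd N φ → ∃ c ∈ P, ∃ d ∈ P, ∃ c' ∈ P, ∃ d' ∈ P,
      ppd N ψ ≤ ppd N c ∧ ppd N ψ ≤ ppd N d ∧ ppd N c < ppd N c' ∧ ppd N d < ppd N d' ∧
      ppd N c' ≤ ppd N c ⊔ ppd N d ∧ ppd N d' ≤ ppd N c ⊔ ppd N d ∧
      ppd N c ⊔ ppd N d ≤ ppd N φ) :
    ∃ (H : Type) (_ : AddCommGroup H) (_ : Module R H), AC R H ∧ InD Q H ∧ Nontrivial H ∧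
      ∀ A B : Submodule R H, IsCompl A B → ¬ Indec R A := by
  classical
  -- the interval
  haveI iF : Fact (ppd N β0 ≤ ppd N β1) := ⟨hβ⟩
  have hsur : ∀ b : Set.Icc (ppd (R := R) N β0) (ppd N β1), ∃ (φ : PP R 1)
      (h : ppd N φ ∈ Set.Icc (ppd N β0) (ppd N β1)), (⟨ppd N φ, h⟩ : Set.Icc _ _) = b := by
    rintro ⟨b, hb⟩
    obtain ⟨φ, rfl⟩ := ppd_surj b
    exact ⟨φ, hb, rfl⟩
  have hdl : ∀ a b c : Set.Icc (ppd (R := R) N β0) (ppd N β1), a ⊓ (b ⊔ c) ≤ a ⊓ b ⊔ a ⊓ c := by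
    intro a b c
    obtain ⟨φ, hφ, rfl⟩ := hsur a
    obtain ⟨ψ, hψ, rfl⟩ := hsur b
    obtain ⟨χ, hχ, rfl⟩ := hsur c
    intro x hx
    have hx1 : x ∈ ppD N φ := hx.1
    have hx2 : x ∈ ppD N ψ ⊔ ppD N χ := hx.2
    rw [AddSubgroup.mem_sup] at hx2
    obtain ⟨y, hy, z, hz, h⟩ := hx2
    obtain ⟨y', z', h', hy', hz'⟩ := hdist φ ψ χ hφ.1 hφ.2 hψ.1 hψ.2 hχ.1 hχ.2 x hx1
      ⟨y, z, h.symm, hy, hz⟩
    show x ∈ (ppD N φ ⊓ ppD N ψ) ⊔ (ppD N φ ⊓ ppD N χ)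
    rw [AddSubgroup.mem_sup]
    exact ⟨y', hy', z', hz', h'.symm⟩
  letI iD : DistribLattice (Set.Icc (ppd (R := R) N β0) (ppd N β1)) :=
    DistribLattice.ofInfSupLe hdl
  obtain ⟨ψ, φ, h1, h2, h3, h4⟩ := tree (α := Set.Icc (ppd (R := R) N β0) (ppd N β1))
    {b | ∃ σ ∈ P, ppd N σ = b.1}
    (by
      obtain ⟨φ, hφ, ψ, hψ, h⟩ := hne
      exact ⟨⟨_, hP φ hφ⟩, ⟨φ, hφ, rfl⟩, ⟨_, hP ψ hψ⟩, ⟨ψ, hψ, rfl⟩, h⟩)
    (by
      rintro ⟨_, _⟩ ⟨φ, hφ, rfl⟩ ⟨_, _⟩ ⟨ψ, hψ, rfl⟩ h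
      obtain ⟨c, hc, d, hd, c', hc', d', hd', g1, g2, g3, g4, g5, g6, g7⟩ := hw φ hφ ψ hψ h
      exact ⟨⟨_, hP c hc⟩, ⟨c, hc, rfl⟩, ⟨_, hP d hd⟩, ⟨d, hd, rfl⟩, ⟨_, hP c' hc'⟩,
        ⟨c', hc', rfl⟩, ⟨_, hP d' hd'⟩, ⟨d', hd', rfl⟩, g1, g2, g3, g4, g5, g6, g7⟩)
  obtain ⟨F', hF1, hF2, hF3, hF4, hF5⟩ := latt ψ φ h1 h2 h3 h4
  obtain ⟨F, hE1, hE2, hE3, hE4, hE5⟩ := extF (Set.Icc (ppd (R := R) N β0) (ppd N β1))
    (Subtype.val '' F') (by
      rintro _ ⟨b, _, rfl⟩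
      exact b.2) ⟨_, ⟨⊤, hF3, rfl⟩⟩ (by
      rintro _ ⟨a, ha, rfl⟩ b hb hab
      exact ⟨⟨b, hb⟩, hF1 a ha _ hab, rfl⟩) (by
      rintro _ ⟨a, ha, rfl⟩ _ ⟨b, hb, rfl⟩
      exact ⟨a ⊓ b, hF2 a ha b hb, rfl⟩)
  obtain ⟨M, iM1, iM2, hMQ, hMac, a, ha⟩ := real
    ({q | ∀ x : Fin q.1 → N, q.2.1.H x → q.2.2.H x} : Set (Σ n : ℕ, PP R n × PP R n)) N
    (fun q hq => hq) {σ : PP R 1 | ppd N σ ∈ F} (by
      intro G
      induction G using Finset.induction_on with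
      | empty =>
        intro _ τ hτ
        refine hE1 _ (hE3 ⟨⊤, hF3, rfl⟩) _ (by
          intro x _
          exact hτ x (by simp))
      | insert σ G _ ih =>
        intro hG τ hτ
        obtain ⟨κ', hκ'⟩ := andFin G
        have e1 : ppd N κ' ∈ F := ih (fun u hu => hG (by simp [Finset.mem_coe.1 hu])) κ' (by
          intro x hx
          exact (hκ' N (fun _ => x)).2 hx)
        have e2 : ppd N σ ∈ F := hG (by simp)
        refine hE1 _ (hE2 _ e2 _ e1) _ ?_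
        intro x hx
        have hx1 : σ.h x := hx.1
        have hx2 : κ'.h x := hx.2
        refine hτ x fun u hu => ?_
        rcases Finset.mem_insert.1 hu with h | h
        · rw [h]
          exact hx1
        · exact (hκ' N (fun _ => x)).1 hx2 u h)
  have tr : ∀ σ τ : PP R 1, (∀ x : N, σ.h x → τ.h x) → ∀ x : M, σ.h x → τ.h x := by
    intro σ τ h x hx
    refine hMQ ⟨1, σ, τ⟩ ?_ (fun _ => x) hx
    intro y hy
    have e : y = fun _ => y 0 := by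
      funext j
      rw [Subsingleton.elim j 0]
    rw [e] at hy ⊢
    exact h (y 0) hy
  have hInQ : InD Q M := fun q hq => hMQ q (hN q hq)
  obtain ⟨e, he, hea, hh⟩ := hull hMac a
  have hip : ∀ x : LinearMap.range e, e.rangeRestrict ((LinearMap.range e).subtype x) = x := by
    rintro ⟨x, m, rfl⟩
    apply Subtype.ext
    exact he m
  have hret := ac_retract (LinearMap.range e).subtype e.rangeRestrict hip
  refine ⟨LinearMap.range e, inferInstance, inferInstance, hret.1 hMac, hret.2.1 Q hInQ, ?_, ?_⟩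
  · refine nontrivial_of_ne (⟨a, ⟨a, hea⟩⟩ : LinearMap.range e) 0 ?_
    intro h0
    have ha0 : a = 0 := congrArg Subtype.val h0
    obtain ⟨b, hb⟩ := hF4
    obtain ⟨σ, hσ, rfl⟩ := hsur b
    apply hb
    have : σ.h a := by
      rw [ha0]
      exact (h_add σ (0 : M) 0).2.2.2
    obtain ⟨b', hb', hb''⟩ := hE4 _ ((ha σ).1 this) hσ
    have : b' = ⟨ppd N σ, hσ⟩ := Subtype.ext hb''
    rw [← this]
    exact hb'
  · intro A B hAB
    refine sdc2 hMac a e he hea hh ?_ A B hAB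
    intro σ hσ
    have hσF : ppd N σ ∉ F := fun h => hσ ((ha σ).2 h)
    obtain ⟨c, hc, d, hd, hdF, hcd⟩ := hE5 _ hσF
    obtain ⟨γ, rfl⟩ := ppd_surj c
    have hdF' : (⟨d, hd⟩ : Set.Icc _ _) ∉ F' := fun h => hdF ⟨_, h, rfl⟩
    obtain ⟨b0, b1, hb0, hb1, hd0, hd1, hbc⟩ := hF5 _ hdF'
    obtain ⟨σ0, hσ0, rfl⟩ := hsur b0
    obtain ⟨σ1, hσ1, rfl⟩ := hsur b1
    obtain ⟨κ, hκ⟩ := sumTwo σ0 σ1
    have hκF : ppd N κ ∈ F := by
      rw [ppd_sup σ0 σ1 κ (hκ N)]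
      exact hE3 ⟨_, hbc, rfl⟩
    have nn : ∀ (τ : PP R 1) (h : ppd N τ ∈ Set.Icc (ppd N β0) (ppd N β1)),
        (⟨ppd N τ, h⟩ : Set.Icc _ _) ∉ F' → ¬ τ.h a := by
      intro τ h hτ hcon
      obtain ⟨b', hb', hb''⟩ := hE4 _ ((ha τ).1 hcon) h
      apply hτ
      have : b' = ⟨ppd N τ, h⟩ := Subtype.ext hb''
      rw [← this]
      exact hb'
    refine ⟨γ, σ0, σ1, (ha γ).2 hc, nn σ0 hσ0 hb0, nn σ1 hσ1 hb1, ?_, ?_, ?_⟩
    · obtain ⟨κ1, hκ1⟩ := andTwo γ σ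
      intro x hx1 hx2
      have hle0 : ∀ x : N, κ1.h x → σ0.h x := by
        intro x hx
        have hx' := (hκ1 N x).1 hx
        have : x ∈ (d : ppL R N).1 := hcd ⟨hx'.1, hx'.2⟩
        exact hd0 this
      have hle1 : ∀ x : N, κ1.h x → σ1.h x := by
        intro x hx
        have hx' := (hκ1 N x).1 hx
        have : x ∈ (d : ppL R N).1 := hcd ⟨hx'.1, hx'.2⟩
        exact hd1 this
      exact ⟨tr κ1 σ0 hle0 x ((hκ1 M x).2 ⟨hx1, hx2⟩), tr κ1 σ1 hle1 x ((hκ1 M x).2 ⟨hx1, hx2⟩)⟩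
    · exact (hκ M a).1 ((ha κ).2 hκF)
    · intro τ x hx hx2
      obtain ⟨κ1, hκ1⟩ := andTwo τ κ
      obtain ⟨κ2, hκ2⟩ := andTwo τ σ0
      obtain ⟨κ3, hκ3⟩ := andTwo τ σ1
      obtain ⟨κ4, hκ4⟩ := sumTwo κ2 κ3
      have h := tr κ1 κ4 (by
        intro x hx
        rw [hκ1] at hx
        rw [hκ4]
        obtain ⟨hxτ, hxκ⟩ := hx
        obtain ⟨τ', hτ'⟩ := andTwo τ β1
        obtain ⟨τ'', hτ''⟩ := sumTwo τ' β0
        have hxβ : β1.h x := by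
          obtain ⟨y, z, h, hy, hz⟩ := (hκ N x).1 hxκ
          rw [h]
          exact (h_add β1 y z).1 (hσ0.2 hy) (hσ1.2 hz)
        have hb0 : ppd N β0 ≤ ppd N τ'' := by
          intro w hw
          refine (hτ'' N w).2 ⟨0, w, by simp, (h_add τ' (0 : N) 0).2.2.2, hw⟩
        have hb1 : ppd N τ'' ≤ ppd N β1 := by
          intro w hw
          obtain ⟨y, z, h, hy, hz⟩ := (hτ'' N w).1 hw
          show β1.h w
          rw [h]
          exact (h_add β1 y z).1 ((hτ' N y).1 hy).2 (hβ hz)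
        have hx'' : τ''.h x := (hτ'' N x).2 ⟨x, 0, by simp, (hτ' N x).2 ⟨hxτ, hxβ⟩,
          (h_add β0 (0 : N) 0).2.2.2⟩
        obtain ⟨y, z, h, ⟨hy1, hy2⟩, hz1, hz2⟩ := hdist τ'' σ0 σ1 hb0 hb1 hσ0.1 hσ0.2 hσ1.1 hσ1.2
          x hx'' ((hκ N x).1 hxκ)
        obtain ⟨y1, w1, ey, hy3, hw1⟩ := (hτ'' N y).1 hy1
        obtain ⟨z1, w2, ez, hz3, hw2⟩ := (hτ'' N z).1 hz1
        have hy4 := (hτ' N y1).1 hy3
        have hz4 := (hτ' N z1).1 hz3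
        have ew : x - y1 - z1 = w1 + w2 := by
          rw [h, ey, ez]
          abel
        have hwτ : τ.h (w1 + w2) := by
          rw [← ew]
          exact (h_add τ (x - y1) z1).2.2.1 ((h_add τ x y1).2.2.1 hxτ hy4.1) hz4.1
        have hw0 : β0.h (w1 + w2) := (h_add β0 w1 w2).1 hw1 hw2
        have hy5 : σ0.h y1 := by
          have e1 : y1 = y - w1 := by
            rw [ey]
            abel
          rw [e1]
          exact (h_add σ0 y w1).2.2.1 hy2 (hσ0.1 hw1)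
        have hz5 : σ1.h z1 := by
          have e1 : z1 = z - w2 := by
            rw [ez]
            abel
          rw [e1]
          exact (h_add σ1 z w2).2.2.1 hz2 (hσ1.1 hw2)
        refine ⟨y1 + (w1 + w2), z1, ?_, ?_, ?_⟩
        · rw [h, ey, ez]
          abel
        · exact (hκ2 N _).2 ⟨(h_add τ y1 (w1 + w2)).1 hy4.1 hwτ,
            (h_add σ0 y1 (w1 + w2)).1 hy5 (hσ0.1 hw0)⟩
        · exact (hκ3 N _).2 ⟨hz4.1, hz5⟩) x ((hκ1 M x).2 ⟨hx, (hκ M x).2 hx2⟩)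
      obtain ⟨y, z, h, hy, hz⟩ := (hκ4 M x).1 h
      exact ⟨y, z, h, (hκ2 M y).1 hy, (hκ3 M z).1 hz⟩

end Pool.Agent.Helper232.RZ
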